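import Mathlib

set_option autoImplicit false

namespace Pool.Agent.H587.Deg

open Finset

/-- `P 0 = 1` and `P (k + 1) = P k * (P k + 1)`. -/
def P : ℕ → ℕ
  | 0 => 1
  | k + 1 => P k * (P k + 1)

lemma P_pos (k : ℕ) : 0 < P k := by
  induction k with
  | zero => simp [P]
  | succ k ih => simp only [P]; positivity

lemma surj {α β : Type} [Nonempty β] (T : Finset α) (L : Finset β) (h : L.card ≤ T.card) :
    ∃ f : α → β, ∀ c ∈ L, ∃ x ∈ T, f x = c := by
  classical
  obtain ⟨e⟩ : Nonempty ({c // c ∈ L} ↪ {x // x ∈ T}) := by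
    apply Function.Embedding.nonempty_of_card_le
    simpa using h
  have hinj : Function.Injective (fun c : {c // c ∈ L} => ((e c : {x // x ∈ T}) : α)) :=
    fun a b hab => e.injective (Subtype.ext hab)
  refine ⟨Function.extend (fun c : {c // c ∈ L} => ((e c : {x // x ∈ T}) : α))
    (fun c => (c : β)) (fun _ => Classical.arbitrary β), fun c hc => ?_⟩
  exact ⟨e ⟨c, hc⟩, (e ⟨c, hc⟩).2, hinj.extend_apply _ _ ⟨c, hc⟩⟩

open Classical in
noncomputable def phi {α β : Type} [Nonempty β] (T : Finset α) (L : Finset β) : α → β :=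
  if h : L.card ≤ T.card then (surj T L h).choose else fun _ => Classical.arbitrary β

lemma phi_spec {α β : Type} [Nonempty β] (T : Finset α) (L : Finset β) (h : L.card ≤ T.card) :
    ∀ c ∈ L, ∃ x ∈ T, phi T L x = c := by
  unfold phi
  rw [dif_pos h]
  exact (surj T L h).choose_spec

/-- a finite forest `W` (with the strict ancestor relation `r`) below a chain of `a` further
ancestors, with guessing functions which do not use the own colour -/
structure Sys (q a : ℕ) where
  W : Type
  fin : Fintype W
  r : W → W → Prop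
  g : W → (Fin a → Fin q) → (W → Fin q) → Fin q
  loc : ∀ w x y y', (∀ u, (r u w ∨ r w u) → y u = y' u) → g w x y = g w x y'

/-- `r` is the strict ancestor relation of a rooted forest in which every vertex has at most `d`
ancestors -/
structure IsForest {W : Type} (r : W → W → Prop) (d : ℕ) : Prop where
  irrefl : ∀ w, ¬ r w w
  trans : ∀ u v w, r u v → r v w → r u w
  chain : ∀ u v w, r u w → r v w → u = v ∨ r u v ∨ r v u
  bound : ∀ w, {u | r u w}.ncard ≤ d

/-- colourings of the ancestors for which nobody in the forest guesses right -/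
noncomputable def U {q a : ℕ} (S : Sys q a) (y : S.W → Fin q) : Finset (Fin a → Fin q) := by
  classical
  exact univ.filter (fun x => ∀ w, S.g w x y ≠ y w)

lemma mem_U {q a : ℕ} (S : Sys q a) (y : S.W → Fin q) (x : Fin a → Fin q) :
    x ∈ U S y ↔ ∀ w, S.g w x y ≠ y w := by
  classical
  simp [U]

def ropt {W : Type} (r : W → W → Prop) : Option W → Option W → Prop
  | none, some _ => True
  | some u, some w => r u w
  | _, none => False

noncomputable def Lset {q a : ℕ} (S : Sys q (a + 1)) (y : S.W → Fin q)
    (T : Finset (Fin a → Fin q)) : Finset (Fin q) := by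
  classical
  exact univ.filter (fun c => ∀ x ∈ T, (Fin.cons c x : Fin (a + 1) → Fin q) ∈ U S y)

lemma mem_Lset {q a : ℕ} (S : Sys q (a + 1)) (y : S.W → Fin q)
    (T : Finset (Fin a → Fin q)) (c : Fin q) :
    c ∈ Lset S y T ↔ ∀ x ∈ T, (Fin.cons c x : Fin (a + 1) → Fin q) ∈ U S y := by
  classical
  simp [Lset]

noncomputable def nextG {q a : ℕ} [Nonempty (Fin q)] (S : Sys q (a + 1)) :
    {T : Finset (Fin a → Fin q) // T.card = P a} × Option S.W → (Fin a → Fin q) →
      ({T : Finset (Fin a → Fin q) // T.card = P a} × Option S.W → Fin q) → Fin q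
  | (T, none), x, y => phi T.1 (Lset S (fun u => y (T, some u)) T.1) x
  | (T, some w), x, y =>
      S.g w (Fin.cons (y (T, none)) x : Fin (a + 1) → Fin q) (fun u => y (T, some u))

noncomputable def next {q a : ℕ} [Nonempty (Fin q)] (S : Sys q (a + 1)) : Sys q a where
  W := {T : Finset (Fin a → Fin q) // T.card = P a} × Option S.W
  fin := by
    classical
    haveI := S.fin
    infer_instance
  r := fun u w => u.1 = w.1 ∧ ropt S.r u.2 w.2
  g := nextG S
  loc := by
    rintro ⟨T, o⟩ x y y' h
    cases o with
    | none =>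
      simp only [nextG]
      have : (fun u => y (T, some u)) = (fun u => y' (T, some u)) := by
        funext u
        exact h (T, some u) (Or.inr ⟨rfl, trivial⟩)
      rw [this]
    | some w =>
      simp only [nextG]
      rw [h (T, none) (Or.inl ⟨rfl, trivial⟩)]
      apply S.loc
      intro u hu
      apply h (T, some u)
      rcases hu with hu | hu
      · exact Or.inl ⟨rfl, hu⟩
      · exact Or.inr ⟨rfl, hu⟩

lemma next_card {q a : ℕ} [Nonempty (Fin q)] (S : Sys q (a + 1))
    (hL : ∀ y (T : Finset (Fin a → Fin q)), T.card = P a → (Lset S y T).card ≤ P a)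
    (y : (next S).W → Fin q) : (U (next S) y).card < P a := by
  classical
  by_contra hcon
  push Not at hcon
  obtain ⟨T, hTU, hT⟩ := Finset.exists_subset_card_eq hcon
  set y0 : S.W → Fin q := fun u => y (⟨T, hT⟩, some u) with hy0
  have hc : y (⟨T, hT⟩, none) ∈ Lset S y0 T := by
    rw [mem_Lset]
    intro x hx
    rw [mem_U]
    intro w
    have := (mem_U (next S) y x).1 (hTU hx) (⟨T, hT⟩, some w)
    simpa [next, nextG] using this
  obtain ⟨x, hx, hxc⟩ := phi_spec T (Lset S y0 T) (by rw [hT]; exact hL y0 T hT) _ hc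
  have := (mem_U (next S) y x).1 (hTU hx) (⟨T, hT⟩, none)
  apply this
  simpa [next, nextG] using hxc

lemma next_forest {q a n : ℕ} [Nonempty (Fin q)] (S : Sys q (a + 1)) (h : IsForest S.r n) :
    IsForest (next S).r (n + 1) where
  irrefl := by
    rintro ⟨T, o⟩ ⟨-, h2⟩
    cases o with
    | none => exact h2
    | some w => exact h.irrefl w h2
  trans := by
    rintro ⟨T, o⟩ ⟨T', o'⟩ ⟨T'', o''⟩ ⟨h1, h2⟩ ⟨h3, h4⟩
    refine ⟨h1.trans h3, ?_⟩
    cases o <;> cases o' <;> cases o'' <;> simp_all [ropt]
    exact h.trans _ _ _ h2 h4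
  chain := by
    rintro ⟨T, o⟩ ⟨T', o'⟩ ⟨T'', o''⟩ ⟨h1, h2⟩ ⟨h3, h4⟩
    simp only at h1 h3
    subst h1
    subst h3
    cases o <;> cases o' <;> cases o'' <;> simp_all [ropt, next]
    exact h.chain _ _ _ h2 h4
  bound := by
    classical
    have := S.fin
    rintro ⟨T, o⟩
    cases o with
    | none =>
      have : {u | (next S).r u (T, none)} = ∅ := by
        ext ⟨T', o'⟩
        simp only [Set.mem_setOf_eq, Set.mem_empty_iff_false, iff_false]
        rintro ⟨-, h2⟩
        cases o' <;> exact h2
      rw [this]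
      simp
    | some w =>
      have hsub : {u | (next S).r u (T, some w)} ⊆
          insert ((T, none) : (next S).W) ((fun u : S.W => ((T, some u) : (next S).W)) '' {u | S.r u w}) := by
        rintro ⟨T', o'⟩ ⟨h1, h2⟩
        simp only at h1
        subst h1
        cases o' with
        | none => exact Set.mem_insert _ _
        | some u => exact Set.mem_insert_of_mem _ ⟨u, h2, rfl⟩
      have := (next S).fin
      refine (Set.ncard_le_ncard hsub (Set.toFinite _)).trans ?_
      refine (Set.ncard_insert_le _ _).trans ?_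
      exact Nat.add_le_add_right ((Set.ncard_image_le (Set.toFinite _)).trans (h.bound w)) 1

lemma card_mul_le {q b : ℕ} (S : Sys q (b + 1)) (y : S.W → Fin q) (T : Finset (Fin b → Fin q)) :
    T.card * (Lset S y T).card ≤ (U S y).card := by
  classical
  rw [← Finset.card_product]
  apply Finset.card_le_card_of_injOn (fun z => (Fin.cons z.2 z.1 : Fin (b + 1) → Fin q))
  · rintro ⟨x, c⟩ hz
    simp only [coe_product, Set.mem_prod, mem_coe] at hz
    exact (mem_Lset S y T c).1 hz.2 x hz.1
  · rintro ⟨x, c⟩ - ⟨x', c'⟩ - h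
    have := Fin.cons_injective2 h
    exact Prod.ext this.2 this.1

theorem exists_sys (d : ℕ) : ∀ n a : ℕ, a + n = d →
    ∃ S : Sys (P d) a, IsForest S.r n ∧ ∀ y, (U S y).card < P a := by
  haveI : Nonempty (Fin (P d)) := ⟨⟨0, P_pos d⟩⟩
  intro n
  induction n with
  | zero =>
    intro a ha
    have had : a = d := by omega
    subst had
    let E : Sys (P a) (a + 1) :=
      { W := Empty, fin := inferInstance, r := fun _ _ => False, g := fun w => w.elim,
        loc := fun w => w.elim }
    -- the top level
    refine ⟨next E, ?_, fun y => next_card E (fun y T hT => ?_) y⟩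
    · refine ⟨?_, ?_, ?_, ?_⟩
      · rintro ⟨T, o⟩ ⟨-, h2⟩
        rcases o with _ | w
        · exact h2
        · exact w.elim
      · rintro ⟨T, o⟩ ⟨T', o'⟩ ⟨T'', o''⟩ ⟨h1, h2⟩ ⟨h3, h4⟩
        rcases o'' with _ | w
        · cases o' <;> exact h4.elim
        · exact w.elim
      · rintro ⟨T, o⟩ ⟨T', o'⟩ ⟨T'', o''⟩ ⟨h1, h2⟩ ⟨h3, h4⟩
        rcases o'' with _ | w
        · cases o' <;> exact h4.elim
        · exact w.elim
      · rintro ⟨T, o⟩
        have : {u | (next E).r u (T, o)} = ∅ := by
          ext ⟨T', o'⟩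
          simp only [Set.mem_setOf_eq, Set.mem_empty_iff_false, iff_false]
          rintro ⟨-, h2⟩
          rcases o with _ | w
          · cases o' <;> exact h2
          · exact w.elim
        rw [this]
        simp
    · exact (Finset.card_le_univ _).trans (by simp)
  | succ n ih =>
    intro a ha
    obtain ⟨S, hS, hc⟩ := ih (a + 1) (by omega)
    refine ⟨next S, next_forest S hS, fun y => next_card S (fun y T hT => ?_) y⟩
    have h1 := card_mul_le S y T
    have h2 := hc y
    rw [hT] at h1
    have h3 : P a * (Lset S y T).card < P a * (P a + 1) := lt_of_le_of_lt h1 h2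
    have := Nat.lt_of_mul_lt_mul_left h3
    omega

end Pool.Agent.H587.Deg
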