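import Pool.Agent.H587.Deg.Lower

set_option autoImplicit false

namespace Pool.Agent.H587.Deg

open Finset

/-- the players win the hat guessing game on `G` with `q` colours -/
def Wins {V : Type} (G : SimpleGraph V) (q : ℕ) : Prop :=
  ∃ s : V → (V → Fin q) → Fin q,
    (∀ (v : V) (c c' : V → Fin q), (∀ w : V, G.Adj v w → c w = c' w) → s v c = s v c') ∧
    ∀ c : V → Fin q, ∃ v : V, s v c = c v

/-- `G` has tree-depth at most `d + 1`: there is a rooted forest on the vertices in which every
vertex has at most `d` proper ancestors and adjacent vertices are comparable -/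
def TreeDepthLe {V : Type} (G : SimpleGraph V) (d : ℕ) : Prop :=
  ∃ r : V → V → Prop, IsForest r d ∧ ∀ u w, G.Adj u w → r u w ∨ r w u

variable {V : Type} [Fintype V]

noncomputable def dep (r : V → V → Prop) (v : V) : ℕ := {u | r u v}.ncard

noncomputable def anc (r : V → V → Prop) (v : V) : Finset V := by
  classical
  exact univ.filter (fun u => r u v)

lemma mem_anc (r : V → V → Prop) (v u : V) : u ∈ anc r v ↔ r u v := by
  classical
  simp [anc]

lemma dep_eq (r : V → V → Prop) (v : V) : dep r v = (anc r v).card := by
  unfold dep
  rw [← Set.ncard_coe_finset]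
  congr 1
  ext u
  simp [mem_anc]

lemma dep_lt {r : V → V → Prop} {d : ℕ} (h : IsForest r d) {u v : V} (huv : r u v) :
    dep r u < dep r v := by
  rw [dep_eq, dep_eq]
  apply Finset.card_lt_card
  rw [Finset.ssubset_iff_of_subset]
  · exact ⟨u, (mem_anc r v u).2 huv, fun hu => h.irrefl u ((mem_anc r u u).1 hu)⟩
  · intro w hw
    rw [mem_anc] at hw ⊢
    exact h.trans _ _ _ hw huv

lemma prod_range_P (n : ℕ) : ∏ j ∈ range n, (P j + 1) = P n := by
  induction n with
  | zero => simp [P]
  | succ n ih => rw [Finset.prod_range_succ, ih, P]

lemma prod_anc {r : V → V → Prop} {d : ℕ} (h : IsForest r d) (v : V) :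
    ∏ u ∈ anc r v, (P (dep r u) + 1) = P (dep r v) := by
  classical
  rw [← prod_range_P]
  have hinj : Set.InjOn (dep r) (anc r v) := by
    intro u hu w hw huw
    rw [mem_coe, mem_anc] at hu hw
    rcases h.chain u w v hu hw with h1 | h1 | h1
    · exact h1
    · have := dep_lt h h1; omega
    · have := dep_lt h h1; omega
  have himg : (anc r v).image (dep r) = range (dep r v) := by
    apply Finset.eq_of_subset_of_card_le
    · intro j hj
      rw [Finset.mem_image] at hj
      obtain ⟨u, hu, rfl⟩ := hj
      rw [mem_range]
      exact dep_lt h ((mem_anc r v u).1 hu)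
    · rw [Finset.card_image_of_injOn hinj, card_range, dep_eq]
  rw [← himg, Finset.prod_image hinj]

open Classical in
/-- fill in the colours of the ancestors of `v` -/
noncomputable def fill {q : ℕ} (r : V → V → Prop) (v : V) (c : V → Fin q)
    (z : (u : {u // u ∈ anc r v}) → Fin q) : V → Fin q :=
  fun u => if h : u ∈ anc r v then z ⟨u, h⟩ else c u

theorem not_wins {G : SimpleGraph V} {d q : ℕ} (hG : TreeDepthLe G d) (hq : P d < q) :
    ¬ Wins G q := by
  classical
  obtain ⟨r, hr, hadj⟩ := hG
  rintro ⟨s, hloc, hwin⟩
  have hdep : ∀ v, dep r v ≤ d := fun v => hr.bound v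
  have hPmono : ∀ {m n : ℕ}, m ≤ n → P m ≤ P n := by
    intro m n hmn
    induction hmn with
    | refl => exact le_rfl
    | step _ ih =>
      refine ih.trans ?_
      simp only [P]
      exact Nat.le_mul_of_pos_right _ (by omega)
  -- the lists
  have hlist : ∀ v : V, ∃ L : Finset (Fin q), L.card = P (dep r v) + 1 := by
    intro v
    obtain ⟨L, -, hL⟩ := Finset.exists_subset_card_eq (s := (univ : Finset (Fin q)))
      (n := P (dep r v) + 1) (by
        rw [Finset.card_univ, Fintype.card_fin]
        have := hPmono (hdep v)
        omega)
    exact ⟨L, hL⟩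
  choose L hL using hlist
  have key : ∀ n : ℕ, ∀ F : Finset V, F.card = n → (∀ u w, u ∈ F → r u w → w ∈ F) →
      ∃ c : V → Fin q, (∀ u, c u ∈ L u) ∧ ∀ x : V → Fin q, (∀ u, x u ∈ L u) →
        (∀ u ∈ F, x u = c u) → ∀ v ∈ F, s v x ≠ x v := by
    intro n
    induction n with
    | zero =>
      intro F hF _
      rw [Finset.card_eq_zero] at hF
      subst hF
      have : ∀ u, ∃ a, a ∈ L u := fun u => by
        have : (L u).Nonempty := by
          rw [← Finset.card_pos, hL]
          omega
        exact this
      choose c hc using this
      exact ⟨c, hc, fun x _ _ v hv => by simp at hv⟩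
    | succ n ih =>
      intro F hF hup
      -- a vertex of `F` of smallest depth
      have hne : F.Nonempty := by
        rw [← Finset.card_pos]; omega
      obtain ⟨v, hv, hmin⟩ := Finset.exists_min_image F (dep r) hne
      obtain ⟨c, hc, hcF⟩ := ih (F.erase v) (by rw [Finset.card_erase_of_mem hv]; omega) (by
        intro u w hu huw
        rw [Finset.mem_erase] at hu ⊢
        refine ⟨?_, hup u w hu.2 huw⟩
        rintro rfl
        have h1 := dep_lt hr huw
        have h2 := hmin u hu.2
        omega)
      set Γ : Finset (Fin q) :=
        (Fintype.piFinset (fun u : {u // u ∈ anc r v} => L u.1)).image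
          (fun z => s v (fill r v c z)) with hΓ
      have hcard : Γ.card ≤ P (dep r v) := by
        refine Finset.card_image_le.trans ?_
        rw [Fintype.card_piFinset]
        have : ∀ u : {u // u ∈ anc r v}, (L u.1).card = P (dep r u.1) + 1 := fun u => hL u.1
        simp only [this]
        rw [Finset.prod_coe_sort (anc r v) (fun u => P (dep r u) + 1), prod_anc hr v]
      obtain ⟨a, haL, haΓ⟩ : ∃ a ∈ L v, a ∉ Γ := by
        by_contra hcon
        push Not at hcon
        have := Finset.card_le_card (show L v ⊆ Γ from hcon)
        rw [hL] at this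
        omega
      refine ⟨Function.update c v a, ?_, ?_⟩
      · intro u
        by_cases huv : u = v
        · subst huv; simpa using haL
        · simpa [Function.update_of_ne huv] using hc u
      · intro x hx hxF w hw
        have hxv : x v = a := by simpa using hxF v hv
        have hxe : ∀ u ∈ F.erase v, x u = c u := by
          intro u hu
          rw [Finset.mem_erase] at hu
          have := hxF u hu.2
          rwa [Function.update_of_ne hu.1] at this
        by_cases hwv : w = v
        · subst hwv
          rw [hxv]
          intro hs
          apply haΓ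
          rw [hΓ, Finset.mem_image]
          refine ⟨fun u => x u.1, ?_, ?_⟩
          · rw [Fintype.mem_piFinset]
            exact fun u => hx u.1
          · rw [← hs]
            apply hloc
            intro u hu
            by_cases h : u ∈ anc r w
            · simp [fill, h]
            · have hru : r w u := by
                rcases hadj w u hu with h1 | h1
                · exact h1
                · exact absurd ((mem_anc r w u).2 h1) h
              have huF : u ∈ F := hup w u hv hru
              have hne : u ≠ w := by
                rintro rfl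
                exact G.loopless.irrefl _ hu
              simp [fill, h, hxe u (Finset.mem_erase.2 ⟨hne, huF⟩)]
        · exact hcF x hx hxe w (Finset.mem_erase.2 ⟨hwv, hw⟩)
  obtain ⟨c, hc, h⟩ := key _ univ rfl (fun _ _ _ _ => Finset.mem_univ _)
  obtain ⟨v, hv⟩ := hwin c
  exact h c hc (fun _ _ => rfl) v (Finset.mem_univ _) hv

end Pool.Agent.H587.Deg
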